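import Pool.Agent.Helper68.LM2.Geo
import Pool.Agent.Helper70.LM.M_AD
import Pool.Agent.Helper8.LM.M_VDC
import Pool.Agent.Helper31.LM.M_SD

/-!
# Project LM2, module ARC: the arcs of a side, Fourier decay
-/

set_option autoImplicit false

open MeasureTheory Set Filter Topology
open scoped ENNReal RealInnerProductSpace

namespace Pool.Agent.Helper70.LM2

open Pool.Agent.Helper68.LM2 Pool.Agent.Helper68.LM

theorem hARC (hTAU : StTAU) : StARC := by
  obtain ⟨C₀, hC₀, hAD⟩ := Pool.Agent.Helper70.LM.hAD Pool.Agent.Helper8.LM.hVDC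
  refine ⟨2 * C₀, by linarith, ?_⟩
  intro P u v c φ m₀ τ hside hlev n
  have hSD := Pool.Agent.Helper31.LM.hSD P u v c φ hside
  have hτ2 := hTAU.2 P u v c φ m₀ τ hside hlev n
  obtain ⟨hu, hv, huv, hc, hc1, hφ0, hcont, hdiff, _, hder, hmono⟩ := hside
  obtain ⟨⟨hanti, hpos, hτ1, hge⟩, hτc, hval, _⟩ := hlev
  have ha : 0 < τ (n + 1) := hpos (n + 1)
  have hab : τ (n + 1) < τ n := hanti (Nat.lt_succ_self n)
  have hb : τ n ≤ τ 0 := hanti.antitone (Nat.zero_le n)
  have hb1 : τ n ≤ 1 := hb.trans hτ1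
  have hbc : τ n < c := hb.trans_lt hτc
  set κ : ℝ := (2⁻¹ : ℝ) ^ (m₀ + n) with hκ
  have hκ0 : 0 < κ := by positivity
  have hκ1 : κ ≤ 1 := pow_le_one₀ (by norm_num) (by norm_num)
  have hsub : Icc (τ (n + 1)) (τ n) ⊆ Icc 0 c := fun t ht => ⟨ha.le.trans ht.1, ht.2.trans hbc.le⟩
  have hsubo : Ioo (τ (n + 1)) (τ n) ⊆ Ioo 0 c := fun t ht => ⟨ha.trans ht.1, ht.2.trans hbc⟩
  have hain : τ (n + 1) ∈ Ioo 0 c := ⟨ha, hab.trans hbc⟩
  have hsecond : κ ≤ deriv (deriv φ) (τ (n + 1)) := by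
    have h1 := (hSD (τ (n + 1)) hain).2.2
    have h2 := (hder (τ (n + 1)) hain).2
    rw [hval (n + 1)] at h1
    have h3 : τ (n + 1) ^ 2 ≤ 1 := pow_le_one₀ ha.le (hab.le.trans hb1)
    have h4 : (2⁻¹ : ℝ) ^ (m₀ + (n + 1)) = κ / 2 := by
      rw [hκ, ← add_assoc, pow_succ]
      ring
    rw [h4] at h1
    have h5 : τ (n + 1) ^ 2 / 2 * deriv (deriv φ) (τ (n + 1)) ≤
        1 / 2 * deriv (deriv φ) (τ (n + 1)) := by
      apply mul_le_mul_of_nonneg_right _ h2.le
      linarith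
    linarith
  have hArc : IsArc (τ (n + 1)) (τ n) κ (curve P u v φ) := by
    refine ⟨hab, P, u, v, φ, hu, hv, huv, fun t => rfl, hcont.mono hsub, hdiff.mono hsubo, ?_⟩
    intro t ht
    refine ⟨(hder t (hsubo ht)).1, hsecond.trans ?_⟩
    exact hmono hain (hsubo ht) ht.1.le
  have hGc : ContinuousOn (curve P u v φ) (Icc (τ (n + 1)) (τ n)) := by
    unfold curve
    exact (continuousOn_const.add (continuousOn_id.smul continuousOn_const)).add
      ((hcont.mono hsub).smul continuousOn_const)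
  have hGm : AEMeasurable (curve P u v φ) (volume.restrict (Icc (τ (n + 1)) (τ n))) :=
    hGc.aemeasurable measurableSet_Icc
  refine ⟨hArc, ⟨?_, ?_⟩, ?_⟩
  · unfold nu arcMeasure
    rw [Measure.map_apply_of_aemeasurable hGm Metric.isClosed_closedBall.measurableSet.compl]
    rw [Measure.restrict_apply₀' measurableSet_Icc.nullMeasurableSet]
    have hempty : (curve P u v φ) ⁻¹' (Metric.closedBall 0 (‖P‖ + 2))ᶜ ∩
        Icc (τ (n + 1)) (τ n) = ∅ := by
      rw [Set.eq_empty_iff_forall_notMem]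
      rintro t ⟨h1, h2⟩
      apply h1
      rw [mem_closedBall_zero_iff]
      unfold curve
      have h3 := hτ2 t h2
      have h4 : |φ t| ≤ 1 := by
        rw [abs_of_nonneg h3.1]
        exact h3.2.trans hκ1
      have h5 : |t| ≤ 1 := by
        rw [abs_of_nonneg (ha.le.trans h2.1)]
        exact h2.2.trans hb1
      calc ‖P + t • u + φ t • v‖ ≤ ‖P + t • u‖ + ‖φ t • v‖ := norm_add_le _ _
        _ ≤ (‖P‖ + ‖t • u‖) + ‖φ t • v‖ := by gcongr; exact norm_add_le _ _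
        _ = (‖P‖ + |t|) + |φ t| := by
            rw [norm_smul, norm_smul, hu, hv, Real.norm_eq_abs, Real.norm_eq_abs, mul_one, mul_one]
        _ ≤ ‖P‖ + 2 := by linarith
    rw [hempty]
    exact measure_empty
  · unfold nu arcMeasure
    rw [Measure.map_apply_of_aemeasurable hGm MeasurableSet.univ, Set.preimage_univ,
      Measure.restrict_apply_univ, Real.volume_Icc]
  · set L : ℝ := τ n - τ (n + 1) with hL
    have hL0 : 0 < L := sub_pos.2 hab
    have hL1 : L ≤ 1 := by linarith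
    have hL2 : L ^ 2 ≤ 1 := pow_le_one₀ hL0.le hL1
    have hL20 : 0 < L ^ 2 := by positivity
    have hx : 1 ≤ C₀ / L ^ 2 := by
      rw [le_div_iff₀ hL20]
      linarith
    obtain ⟨e, he1, he2⟩ := exists_nat_pow_near hx (by norm_num : (1:ℝ) < 2)
    refine ⟨e + 1, ?_, ?_⟩
    · rw [pow_succ]
      calc (2:ℝ) ^ e * 2 ≤ C₀ / L ^ 2 * 2 := by gcongr
        _ = 2 * C₀ / L ^ 2 := by ring
    · apply hAD (τ (n + 1)) (τ n) κ (curve P u v φ) hArc hκ0 hκ1
      have h1 : C₀ / (κ * L ^ 2) = κ⁻¹ * (C₀ / L ^ 2) := by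
        rw [div_eq_mul_inv, mul_inv, div_eq_mul_inv]
        ring
      have h2 : κ⁻¹ = (2:ℝ) ^ (m₀ + n) := by
        rw [hκ, inv_pow, inv_inv]
      rw [h1, h2, pow_add 2 (m₀ + n) (e + 1)]
      exact mul_le_mul_of_nonneg_left he2.le (by positivity)

end Pool.Agent.Helper70.LM2
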