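import Pool.Agent.Helper68.LM2.St

/-!
# Project LM2, module LL: the weighted `L²` estimate
-/

set_option autoImplicit false

open MeasureTheory Set Filter Topology
open scoped ENNReal RealInnerProductSpace

namespace Pool.Agent.Helper70.LM2

open Pool.Agent.Helper68.LM2 Pool.Agent.Helper68.LM

theorem enorm_sq_LL (x : ℝ) : ‖x‖ₑ ^ 2 = ENNReal.ofReal (x ^ 2) := by
  rw [← sq_abs, ENNReal.ofReal_pow (abs_nonneg x), Real.enorm_eq_ofReal_abs]

/-- weighted Cauchy-Schwarz inequality -/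
theorem cs_LL {ι : Type*} (s : Finset ι) (y c : ι → ℝ) (hc : ∀ i ∈ s, 0 < c i) :
    ‖∑ i ∈ s, y i‖ₑ ^ 2 ≤ ENNReal.ofReal (∑ i ∈ s, c i) *
      ∑ i ∈ s, ENNReal.ofReal (c i)⁻¹ * ‖y i‖ₑ ^ 2 := by
  have h1 : (∑ i ∈ s, y i) ^ 2 ≤ (∑ i ∈ s, c i) * ∑ i ∈ s, (c i)⁻¹ * y i ^ 2 := by
    apply Finset.sum_sq_le_sum_mul_sum_of_sq_eq_mul
    · intro i hi
      exact (hc i hi).le
    · intro i hi
      exact mul_nonneg (inv_nonneg.2 (hc i hi).le) (sq_nonneg _)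
    · intro i hi
      rw [← mul_assoc, mul_inv_cancel₀ (hc i hi).ne', one_mul]
  rw [enorm_sq_LL]
  calc _ ≤ ENNReal.ofReal ((∑ i ∈ s, c i) * ∑ i ∈ s, (c i)⁻¹ * y i ^ 2) :=
        ENNReal.ofReal_le_ofReal h1
    _ = ENNReal.ofReal (∑ i ∈ s, c i) * ENNReal.ofReal (∑ i ∈ s, (c i)⁻¹ * y i ^ 2) :=
        ENNReal.ofReal_mul (Finset.sum_nonneg (fun i hi => (hc i hi).le))
    _ = _ := by
        congr 1
        rw [ENNReal.ofReal_sum_of_nonneg]
        · apply Finset.sum_congr rfl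
          intro i hi
          rw [ENNReal.ofReal_mul (inv_nonneg.2 (hc i hi).le), enorm_sq_LL]
        · intro i hi
          exact mul_nonneg (inv_nonneg.2 (hc i hi).le) (sq_nonneg _)

theorem BR_zero_LL : BR (fun _ => 0) := ⟨measurable_const, 0, fun z => by simp, fun z _ => rfl⟩

theorem E2_zero_LL (l : ℤ) (z : ℝ × ℝ) : E2 l (fun _ => 0) z = 0 := by simp [E2, E1]

theorem D2_add_LL (hEB : StEB) {l : ℤ} {g h : ℝ × ℝ → ℝ} (hg : BR g) (hh : BR h) (z : ℝ × ℝ) :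
    D2 l (fun w => g w + h w) z = D2 l g z + D2 l h z := by
  obtain ⟨-, -, -, -, -, -, hadd, -⟩ := hEB
  unfold D2
  rw [(hadd l g h z hg hh).1, (hadd (l + 1) g h z hg hh).1]
  ring

theorem D2_sum_LL (hEB : StEB) (l : ℤ) {ι : Type*} (s : Finset ι) (f : ι → ℝ × ℝ → ℝ)
    (hf : ∀ i ∈ s, BR (f i)) : BR (fun z => ∑ i ∈ s, f i z) ∧
    ∀ z, D2 l (fun z => ∑ i ∈ s, f i z) z = ∑ i ∈ s, D2 l (f i) z := by
  classical
  induction s using Finset.induction_on with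
  | empty =>
    simp only [Finset.sum_empty]
    exact ⟨BR_zero_LL, fun z => by unfold D2; rw [E2_zero_LL, E2_zero_LL, sub_zero]⟩
  | insert a s ha ih =>
    obtain ⟨h1, h2⟩ := ih (fun i hi => hf i (Finset.mem_insert_of_mem hi))
    have h3 := hf a (Finset.mem_insert_self a s)
    simp only [Finset.sum_insert ha]
    refine ⟨(hEB.2.1 _ _ h3 h1).1, fun z => ?_⟩
    rw [D2_add_LL hEB h3 h1, h2]

theorem BR_sq_LL {h : ℝ × ℝ → ℝ} (hh : BR h) : BR (fun z => h z ^ 2) := by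
  obtain ⟨hm, K, hK, hK'⟩ := hh
  refine ⟨hm.pow_const 2, max K (K ^ 2), ?_, ?_⟩
  · intro z
    rw [abs_pow]
    exact (pow_le_pow_left₀ (abs_nonneg _) (hK z) 2).trans (le_max_right _ _)
  · intro z hz
    show h z ^ 2 = 0
    rw [hK' z ((le_max_left _ _).trans_lt hz)]
    norm_num

theorem int_sq_LL (hEB : StEB) {h : ℝ × ℝ → ℝ} (hh : BR h) :
    ∫⁻ z, ‖h z‖ₑ ^ 2 = ENNReal.ofReal (∫ z, h z ^ 2) := by
  rw [ofReal_integral_eq_lintegral_ofReal (hEB.1 _ (BR_sq_LL hh)).2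
    (Eventually.of_forall fun z => sq_nonneg _)]
  simp only [enorm_sq_LL]

theorem hLL (hEB : StEB) (hRHO : StRHO) (hORT : StORT) : StLL := by
  classical
  intro τ m₀ hτ Nm R S h ω hS hh hω
  obtain ⟨-, -, rBR, rLp, rcom, -, radd, -⟩ := hRHO τ m₀ hτ
  obtain ⟨oBes, -, oOrt⟩ := hORT
  have eBR := hEB.2.2.2.1
  have rsub : ∀ (n : ℕ) (k : ℤ) (g h : ℝ × ℝ → ℝ) (z : ℝ × ℝ), BR g → BR h →
      Rh (rho τ m₀ n) k (fun w => g w - h w) z =
        Rh (rho τ m₀ n) k g z - Rh (rho τ m₀ n) k h z := by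
    intro n k g h z hg hh
    have h1 := radd n k (fun w => g w - h w) h z (hEB.2.1 g h hg hh).2 hh
    simp only [sub_add_cancel] at h1
    rw [h1]
    ring
  have rD : ∀ (n : ℕ) (k l : ℤ) (g : ℝ × ℝ → ℝ) (z : ℝ × ℝ), BR g →
      D2 l (Rh (rho τ m₀ n) k g) z = Rh (rho τ m₀ n) k (D2 l g) z := by
    intro n k l g z hg
    have e1 : D2 l g = fun w => E2 l g w - E2 (l + 1) g w := rfl
    rw [e1, rsub n k _ _ z (eBR l g hg).1 (eBR (l + 1) g hg).1, ← rcom n k l g z hg,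
      ← rcom n k (l + 1) g z hg]
    rfl
  have vC : ∀ (n : ℕ) (k : ℤ) (g : ℝ × ℝ → ℝ) (z : ℝ × ℝ), BR g → Vc τ m₀ k n g z =
      ∑ i ∈ Finset.range n, D2 (k - (m₀ : ℤ) + 1 - (i : ℤ)) (Rh (rho τ m₀ n) k g) z := by
    intro n k g z hg
    unfold Vc
    rw [rsub n k _ _ z (eBR _ g hg).1 (eBR _ g hg).1, ← rcom n k _ g z hg, ← rcom n k _ g z hg]
    have h1 := Finset.sum_range_sub
      (fun i : ℕ => E2 (k - (m₀ : ℤ) + 2 - (i : ℤ)) (Rh (rho τ m₀ n) k g) z) n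
    have e1 : k - (m₀ : ℤ) - (n : ℤ) + 2 = k - (m₀ : ℤ) + 2 - (n : ℤ) := by ring
    have e2 : k - (m₀ : ℤ) + 2 = k - (m₀ : ℤ) + 2 - ((0 : ℕ) : ℤ) := by simp
    rw [e1]
    conv_lhs => rw [e2]
    simp only [Nat.cast_zero, sub_zero] at h1 ⊢
    rw [← h1]
    apply Finset.sum_congr rfl
    intro i _
    have e3 : k - (m₀ : ℤ) + 2 - ((i + 1 : ℕ) : ℤ) = k - (m₀ : ℤ) + 1 - (i : ℤ) := by
      push_cast
      ring
    have e4 : k - (m₀ : ℤ) + 2 - (i : ℤ) = k - (m₀ : ℤ) + 1 - (i : ℤ) + 1 := by ring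
    rw [e3, e4]
    rfl
  set I : ℕ → Finset (Σ _ : ℕ, ℕ) := fun j =>
    (Finset.range R).sigma (fun r => (S r).filter (fun n => j < n)) with hI
  set X : ℤ → ℕ → ℝ × ℝ → ℝ := fun k j z =>
    ∑ x ∈ I j, Rh (rho τ m₀ x.2) k (h x.1) z with hX
  have hXs : ∀ (k : ℤ) (j : ℕ) (l : ℤ), BR (X k j) ∧ ∀ z, D2 l (X k j) z =
      ∑ x ∈ I j, D2 l (Rh (rho τ m₀ x.2) k (h x.1)) z := by
    intro k j l
    exact D2_sum_LL hEB l (I j) (fun x => Rh (rho τ m₀ x.2) k (h x.1))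
      (fun x _ => rBR x.2 k (h x.1) (hh x.1))
  have hF : ∀ (k : ℤ) (z : ℝ × ℝ), ∑ r ∈ Finset.range R, ∑ n ∈ S r, Vc τ m₀ k n (h r) z =
      ∑ j ∈ Finset.range Nm, D2 (k - (m₀ : ℤ) + 1 - (j : ℤ)) (X k j) z := by
    intro k z
    have h1 : ∀ j ∈ Finset.range Nm, D2 (k - (m₀ : ℤ) + 1 - (j : ℤ)) (X k j) z =
        ∑ r ∈ Finset.range R, ∑ n ∈ S r, if j < n then
          D2 (k - (m₀ : ℤ) + 1 - (j : ℤ)) (Rh (rho τ m₀ n) k (h r)) z else 0 := by
      intro j _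
      rw [(hXs k j _).2 z, hI]
      simp only
      rw [Finset.sum_sigma]
      apply Finset.sum_congr rfl
      intro r _
      rw [Finset.sum_filter]
    rw [Finset.sum_congr rfl h1, Finset.sum_comm]
    apply Finset.sum_congr rfl
    intro r _
    rw [Finset.sum_comm]
    apply Finset.sum_congr rfl
    intro n hn
    rw [vC n k (h r) z (hh r), ← Finset.sum_filter]
    apply Finset.sum_congr _ (fun _ _ => rfl)
    ext j
    have := Finset.mem_range.1 (hS r hn)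
    simp only [Finset.mem_filter, Finset.mem_range]
    omega
  have hlam : ∀ n, 0 < 2 * (τ n - τ (n + 1)) := by
    intro n
    have := hτ.1 (Nat.lt_succ_self n)
    linarith
  have hwt : ∀ r j, ∑ n ∈ (S r).filter (fun n => j < n), 2 * (τ n - τ (n + 1)) ≤
      wt τ (S r) j := by
    intro r j
    unfold wt
    apply Finset.sum_le_sum_of_subset_of_nonneg
    · intro n hn
      rw [Finset.mem_filter] at hn ⊢
      exact ⟨hn.1, hn.2.le⟩
    · intro n _ _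
      exact (hlam n).le
  have hwt0 : ∀ r j, 0 ≤ wt τ (S r) j := fun r j =>
    Finset.sum_nonneg (fun n _ => (hlam n).le)
  have key : ∀ (k l : ℤ) (j : ℕ), ∫⁻ z, ‖D2 l (X k j) z‖ₑ ^ 2 ≤
      ENNReal.ofReal (∑ r ∈ Finset.range R, wt τ (S r) j * ω r j) *
        ∑ r ∈ Finset.range R, ENNReal.ofReal (wt τ (S r) j * (ω r j)⁻¹) *
          ∫⁻ z, ‖D2 l (h r) z‖ₑ ^ 2 := by
    intro k l j
    set y : (Σ _ : ℕ, ℕ) → ℝ × ℝ → ℝ := fun x => Rh (rho τ m₀ x.2) k (D2 l (h x.1)) with hy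
    set c : (Σ _ : ℕ, ℕ) → ℝ := fun x => 2 * (τ x.2 - τ (x.2 + 1)) * ω x.1 j with hc
    have hc0 : ∀ x, 0 < c x := fun x => mul_pos (hlam x.2) (hω x.1 j)
    have hym : ∀ x, Measurable (y x) := fun x => (rBR x.2 k _ (eBR l _ (hh x.1)).2).1
    have h1 : ∀ z, D2 l (X k j) z = ∑ x ∈ I j, y x z := by
      intro z
      rw [(hXs k j l).2 z]
      apply Finset.sum_congr rfl
      intro x _
      exact rD x.2 k l (h x.1) z (hh x.1)
    have h2 : ∀ x, ∫⁻ z, ‖y x z‖ₑ ^ 2 ≤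
        ENNReal.ofReal ((2 * (τ x.2 - τ (x.2 + 1))) ^ 2) * ∫⁻ z, ‖D2 l (h x.1) z‖ₑ ^ 2 := by
      intro x
      have := rLp x.2 k 2 (D2 l (h x.1)) (by norm_num) (eBR l _ (hh x.1)).2
      simpa only [ENNReal.rpow_two, Real.rpow_two] using this
    have h3 : ∑ x ∈ I j, c x ≤ ∑ r ∈ Finset.range R, wt τ (S r) j * ω r j := by
      rw [hI]
      simp only
      rw [Finset.sum_sigma]
      apply Finset.sum_le_sum
      intro r _
      simp only [hc]
      rw [← Finset.sum_mul]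
      exact mul_le_mul_of_nonneg_right (hwt r j) (hω r j).le
    have h4 : ∑ x ∈ I j, ENNReal.ofReal (c x)⁻¹ *
        (ENNReal.ofReal ((2 * (τ x.2 - τ (x.2 + 1))) ^ 2) * ∫⁻ z, ‖D2 l (h x.1) z‖ₑ ^ 2) ≤
        ∑ r ∈ Finset.range R, ENNReal.ofReal (wt τ (S r) j * (ω r j)⁻¹) *
          ∫⁻ z, ‖D2 l (h r) z‖ₑ ^ 2 := by
      rw [hI]
      simp only
      rw [Finset.sum_sigma]
      apply Finset.sum_le_sum
      intro r _
      have e1 : ∀ n ∈ (S r).filter (fun n => j < n), ENNReal.ofReal (c ⟨r, n⟩)⁻¹ *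
          (ENNReal.ofReal ((2 * (τ n - τ (n + 1))) ^ 2) * ∫⁻ z, ‖D2 l (h r) z‖ₑ ^ 2) =
          ENNReal.ofReal (2 * (τ n - τ (n + 1)) * (ω r j)⁻¹) * ∫⁻ z, ‖D2 l (h r) z‖ₑ ^ 2 := by
        intro n _
        rw [← mul_assoc, ← ENNReal.ofReal_mul (inv_nonneg.2 (hc0 _).le)]
        congr 2
        have a1 := (hlam n).ne'
        have a2 := (hω r j).ne'
        simp only [hc]
        rw [mul_inv, sq]
        calc (2 * (τ n - τ (n + 1)))⁻¹ * (ω r j)⁻¹ *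
              ((2 * (τ n - τ (n + 1))) * (2 * (τ n - τ (n + 1))))
            = ((2 * (τ n - τ (n + 1)))⁻¹ * (2 * (τ n - τ (n + 1)))) *
              ((2 * (τ n - τ (n + 1))) * (ω r j)⁻¹) := by ring
          _ = _ := by rw [inv_mul_cancel₀ a1, one_mul]
      simp only
      rw [Finset.sum_congr rfl e1, ← Finset.sum_mul]
      gcongr
      rw [← ENNReal.ofReal_sum_of_nonneg
        (fun n _ => mul_nonneg (hlam n).le (inv_nonneg.2 (hω r j).le))]
      apply ENNReal.ofReal_le_ofReal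
      rw [← Finset.sum_mul]
      exact mul_le_mul_of_nonneg_right (hwt r j) (inv_nonneg.2 (hω r j).le)
    calc ∫⁻ z, ‖D2 l (X k j) z‖ₑ ^ 2
        = ∫⁻ z, ‖∑ x ∈ I j, y x z‖ₑ ^ 2 := by simp only [h1]
      _ ≤ ∫⁻ z, ENNReal.ofReal (∑ x ∈ I j, c x) *
            ∑ x ∈ I j, ENNReal.ofReal (c x)⁻¹ * ‖y x z‖ₑ ^ 2 :=
          lintegral_mono (fun z => cs_LL (I j) (fun x => y x z) c (fun x _ => hc0 x))
      _ = ENNReal.ofReal (∑ x ∈ I j, c x) *
            ∑ x ∈ I j, ENNReal.ofReal (c x)⁻¹ * ∫⁻ z, ‖y x z‖ₑ ^ 2 := by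
          rw [lintegral_const_mul' _ _ ENNReal.ofReal_ne_top, lintegral_finsetSum]
          · congr 1
            apply Finset.sum_congr rfl
            intro x _
            rw [lintegral_const_mul' _ _ ENNReal.ofReal_ne_top]
          · intro x _
            exact ((hym x).enorm.pow_const 2).const_mul _
      _ ≤ ENNReal.ofReal (∑ r ∈ Finset.range R, wt τ (S r) j * ω r j) *
            ∑ x ∈ I j, ENNReal.ofReal (c x)⁻¹ *
              (ENNReal.ofReal ((2 * (τ x.2 - τ (x.2 + 1))) ^ 2) *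
                ∫⁻ z, ‖D2 l (h x.1) z‖ₑ ^ 2) := by
          gcongr with x _
          exact h2 x
      _ ≤ _ := by gcongr
  have hsh : ∀ (j r : ℕ), ∑' k : ℤ, ∫⁻ z, ‖D2 (k - (m₀ : ℤ) + 1 - (j : ℤ)) (h r) z‖ₑ ^ 2 ≤
      ENNReal.ofReal (∫ z, h r z ^ 2) := by
    intro j r
    rw [← int_sq_LL hEB (hh r)]
    refine le_trans (le_of_eq ?_) (oBes (h r) (hh r))
    have e1 := (Equiv.subRight ((m₀ : ℤ) - 1 + j)).tsum_eq
      (fun m : ℤ => ∫⁻ z, ‖D2 m (h r) z‖ₑ ^ 2)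
    rw [← e1]
    congr 1
    funext k
    have e2 : k - (m₀ : ℤ) + 1 - (j : ℤ) = (Equiv.subRight ((m₀ : ℤ) - 1 + j)) k := by
      simp only [Equiv.subRight_apply]
      ring
    rw [e2]
  calc ∑' k : ℤ, ∫⁻ z, ‖∑ r ∈ Finset.range R, ∑ n ∈ S r, Vc τ m₀ k n (h r) z‖ₑ ^ 2
      ≤ ∑' k : ℤ, ∑ j ∈ Finset.range Nm,
          ENNReal.ofReal (∑ r ∈ Finset.range R, wt τ (S r) j * ω r j) *
            ∑ r ∈ Finset.range R, ENNReal.ofReal (wt τ (S r) j * (ω r j)⁻¹) *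
              ∫⁻ z, ‖D2 (k - (m₀ : ℤ) + 1 - (j : ℤ)) (h r) z‖ₑ ^ 2 := by
        apply ENNReal.tsum_le_tsum
        intro k
        simp only [hF k]
        refine (oOrt (k - (m₀ : ℤ) + 1) Nm (X k) (fun j => (hXs k j 0).1)).trans ?_
        apply Finset.sum_le_sum
        intro j _
        exact key k _ j
    _ = ∑ j ∈ Finset.range Nm,
          ENNReal.ofReal (∑ r ∈ Finset.range R, wt τ (S r) j * ω r j) *
            ∑ r ∈ Finset.range R, ENNReal.ofReal (wt τ (S r) j * (ω r j)⁻¹) *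
              ∑' k : ℤ, ∫⁻ z, ‖D2 (k - (m₀ : ℤ) + 1 - (j : ℤ)) (h r) z‖ₑ ^ 2 := by
        rw [Summable.tsum_finsetSum (fun j _ => ENNReal.summable)]
        apply Finset.sum_congr rfl
        intro j _
        rw [ENNReal.tsum_mul_left, Summable.tsum_finsetSum (fun r _ => ENNReal.summable)]
        congr 1
        apply Finset.sum_congr rfl
        intro r _
        rw [ENNReal.tsum_mul_left]
    _ ≤ ∑ j ∈ Finset.range Nm,
          ENNReal.ofReal (∑ r ∈ Finset.range R, wt τ (S r) j * ω r j) *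
            ∑ r ∈ Finset.range R, ENNReal.ofReal (wt τ (S r) j * (ω r j)⁻¹) *
              ENNReal.ofReal (∫ z, h r z ^ 2) := by
        gcongr with j _ r _
        exact hsh j r
    _ = _ := by
        have p1 : ∀ r j, 0 ≤ wt τ (S r) j * (ω r j)⁻¹ := fun r j =>
          mul_nonneg (hwt0 r j) (inv_nonneg.2 (hω r j).le)
        have p2 : ∀ r, 0 ≤ ∫ z, h r z ^ 2 := fun r => integral_nonneg (fun z => sq_nonneg _)
        have p3 : ∀ j, 0 ≤ ∑ r ∈ Finset.range R, wt τ (S r) j * ω r j := fun j =>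
          Finset.sum_nonneg (fun r _ => mul_nonneg (hwt0 r j) (hω r j).le)
        have p4 : ∀ j, 0 ≤ ∑ r ∈ Finset.range R, wt τ (S r) j * (ω r j)⁻¹ * ∫ z, h r z ^ 2 :=
          fun j => Finset.sum_nonneg (fun r _ => mul_nonneg (p1 r j) (p2 r))
        rw [ENNReal.ofReal_sum_of_nonneg (fun j _ => mul_nonneg (p3 j) (p4 j))]
        apply Finset.sum_congr rfl
        intro j _
        rw [ENNReal.ofReal_mul (p3 j),
          ENNReal.ofReal_sum_of_nonneg (fun r _ => mul_nonneg (p1 r j) (p2 r))]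
        congr 1
        apply Finset.sum_congr rfl
        intro r _
        rw [ENNReal.ofReal_mul (p1 r j)]

end Pool.Agent.Helper70.LM2
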